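import Mathlib

/-! A squarefree monomial ideal whose v-number exceeds the depth of the quotient. -/

namespace Pool.Agent.Results.MP_d06a13_ag.Counter

open MvPolynomial

variable {K : Type} [Field K] {n : ℕ}

/-- proper ideals generated by squarefree monomials -/
def SqFreeMon (I : Ideal (MvPolynomial (Fin n) K)) : Prop :=
  I ≠ ⊤ ∧ ∃ S : Set (Finset (Fin n)), I = Ideal.span ((fun s => ∏ i ∈ s, X i) '' S)

/-- the colon ideal `(I : f)` -/
def col (I : Ideal (MvPolynomial (Fin n) K)) (f : MvPolynomial (Fin n) K) :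
    Set (MvPolynomial (Fin n) K) := {g | g * f ∈ I}

/-- the degrees over which the minimum in the v-number is taken -/
def vSet (I : Ideal (MvPolynomial (Fin n) K)) : Set ℕ :=
  {d | ∃ f : MvPolynomial (Fin n) K, f.IsHomogeneous d ∧
    ∃ p ∈ associatedPrimes (MvPolynomial (Fin n) K) (MvPolynomial (Fin n) K ⧸ I),
      col I f = p}

/-- the depth of `R / I`: the supremum of the lengths of the regular sequences in the
homogeneous maximal ideal -/
noncomputable def depth (I : Ideal (MvPolynomial (Fin n) K)) : ℕ∞ :=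
  ⨆ (rs : List (MvPolynomial (Fin n) K))
    (_ : ∀ r ∈ rs, r ∈ Ideal.span (Set.range (X : Fin n → MvPolynomial (Fin n) K)))
    (_ : RingTheory.Sequence.IsRegular (MvPolynomial (Fin n) K ⧸ I) rs), (rs.length : ℕ∞)

abbrev R (K : Type) [Field K] : Type := MvPolynomial (Fin 6) K

def S : Set (Finset (Fin 6)) :=
  {s | s = {0, 1, 2} ∨ s = {3, 4, 5} ∨ ∃ i j : Fin 6, i.1 < 3 ∧ 3 ≤ j.1 ∧ s = {i, j}}

noncomputable def I (K : Type) [Field K] : Ideal (R K) :=
  Ideal.span ((fun s => ∏ i ∈ s, X i) '' S)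

theorem xy_mem {i j : Fin 6} (hi : i.1 < 3) (hj : 3 ≤ j.1) : (X i * X j : R K) ∈ I K := by
  refine Ideal.subset_span ⟨{i, j}, Or.inr (Or.inr ⟨i, j, hi, hj, rfl⟩), ?_⟩
  exact Finset.prod_pair (by rintro rfl; omega)

theorem x_mem : (X 0 * X 1 * X 2 : R K) ∈ I K := by
  refine Ideal.subset_span ⟨{0, 1, 2}, Or.inl rfl, ?_⟩
  simp [mul_assoc]

theorem y_mem : (X 3 * X 4 * X 5 : R K) ∈ I K := by
  refine Ideal.subset_span ⟨{3, 4, 5}, Or.inr (Or.inl rfl), ?_⟩
  simp [mul_assoc]

/-- a ring map that kills every variable outside a face kills the ideal -/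
theorem kill {A : Type} [CommRing A] (φ : R K →+* A) (a b : Fin 6) (hab : a.1 < 3 ↔ b.1 < 3)
    (h : ∀ i, i ≠ a → i ≠ b → φ (X i) = 0) {f : R K} (hf : f ∈ I K) : φ f = 0 := by
  refine (Ideal.span_le.2 ?_ : I K ≤ RingHom.ker φ) hf
  rintro _ ⟨s, hs, rfl⟩
  have : ∃ i ∈ s, i ≠ a ∧ i ≠ b := by
    rcases hs with rfl | rfl | ⟨i, j, hi, hj, rfl⟩
    · revert a b
      intro a b _ _
      fin_cases a <;> fin_cases b <;> decide
    · revert a b
      intro a b _ _
      fin_cases a <;> fin_cases b <;> decide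
    · by_cases ha : a.1 < 3
      · exact ⟨j, by simp, by rintro rfl; omega, by rintro rfl; have := hab.1 ha; omega⟩
      · exact ⟨i, by simp, by rintro rfl; omega, by rintro rfl; exact ha (hab.2 hi)⟩
  obtain ⟨i, hi, h1, h2⟩ := this
  change φ (∏ i ∈ s, X i) = 0
  rw [map_prod]
  exact Finset.prod_eq_zero hi (h i h1 h2)

/-- keep the variables in a set, kill the others -/
noncomputable def keep (p : Fin 6 → Prop) [DecidablePred p] : R K →ₐ[K] R K :=
  aeval fun i => if p i then X i else 0

theorem keep_X (p : Fin 6 → Prop) [DecidablePred p] (i : Fin 6) :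
    keep p (X i : R K) = if p i then X i else 0 := aeval_X _ _

theorem keep_mul (p : Fin 6 → Prop) [DecidablePred p] (g : R K)
    (h : ∀ j, p j → X j * g ∈ I K) (f : R K) :
    (keep p f - C (constantCoeff f)) * g ∈ I K := by
  induction f using MvPolynomial.induction_on with
  | C a => simp [keep]
  | add f1 f2 h1 h2 =>
    convert (I K).add_mem h1 h2 using 1
    simp only [map_add]
    ring
  | mul_X f j _ =>
    rw [map_mul, map_mul, keep_X, constantCoeff_X, mul_zero, map_zero, sub_zero]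
    split_ifs with hj
    · rw [mul_assoc]
      exact (I K).mul_mem_left _ (h j hj)
    · simp

theorem drop_mul (p : Fin 6 → Prop) [DecidablePred p] (g : R K)
    (h : ∀ j, ¬ p j → X j * g ∈ I K) (f : R K) : (f - keep p f) * g ∈ I K := by
  induction f using MvPolynomial.induction_on with
  | C a => simp [keep]
  | add f1 f2 h1 h2 =>
    convert (I K).add_mem h1 h2 using 1
    simp only [map_add]
    ring
  | mul_X f j h1 =>
    rw [map_mul, keep_X]
    split_ifs with hj
    · convert (I K).mul_mem_left (X j) h1 using 1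
      ring
    · convert (I K).mul_mem_left f (h j hj) using 1
      ring

theorem two_mem : 2 ∈ vSet (I K) := by
  have hk : ∀ g : R K, g * (X 0 * X 1) ∈ I K ↔ keep (fun i => i = 0 ∨ i = 1) g = 0 := fun g => by
    constructor
    · intro h
      have := kill (keep (K := K) (fun i => i = 0 ∨ i = 1)).toRingHom 0 1 (by decide)
        (fun i h1 h2 => by simp [keep_X, h1, h2]) h
      simpa [keep_X] using this
    · intro h
      have := drop_mul (fun i => i = 0 ∨ i = 1) (X 0 * X 1 : R K) (fun j hj => by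
        by_cases h3 : j.1 < 3
        · have : j = 2 := by
            revert j
            decide
          subst this
          convert x_mem (K := K) using 1
          ring
        · convert (I K).mul_mem_left (X 1) (xy_mem (i := 0) (j := j) (by decide) (by omega)) using 1
          ring) g
      rwa [h, sub_zero] at this
  refine ⟨X 0 * X 1, (isHomogeneous_X K 0).mul (isHomogeneous_X K 1),
    RingHom.ker (keep (K := K) (fun i => i = 0 ∨ i = 1)).toRingHom, ?_, Set.ext fun g => hk g⟩
  rw [AssociatedPrimes.mem_iff, isAssociatedPrime_iff]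
  refine ⟨RingHom.ker_isPrime _, Ideal.Quotient.mk _ (X 0 * X 1), ?_⟩
  ext g
  rw [Submodule.mem_colon_singleton, Submodule.mem_bot, RingHom.mem_ker]
  refine (hk g).symm.trans ?_
  rw [← Ideal.Quotient.eq_zero_iff_mem]
  rfl

theorem ev_zero {f : R K} (hf : f ∈ I K) (a b : Fin 6) (hab : a.1 < 3 ↔ b.1 < 3) (s t : K) :
    eval (Pi.single a s + Pi.single b t) f = 0 :=
  kill (eval _) a b hab (fun i h1 h2 => by simp [h1, h2]) hf

theorem X_not_mem (i : Fin 6) (c : K) (hc : c ≠ 0) : (X i * C c : R K) ∉ I K := fun h => by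
  have := ev_zero h i i Iff.rfl 1 0
  simp [hc] at this

theorem two_le : ∀ d ∈ vSet (I K), 2 ≤ d := by
  rintro d ⟨f, hf, p, hp, h⟩
  have hpr : p.IsPrime := (AssociatedPrimes.mem_iff.1 hp).isPrime
  have hm : ∀ g, g ∈ p ↔ g * f ∈ I K := fun g => (Set.ext_iff.1 h g).symm
  have hI : ∀ g ∈ I K, g ∈ p := fun g hg => (hm g).2 ((I K).mul_mem_right _ hg)
  have hf0 : f ∉ I K := fun h0 => hpr.ne_top ((Ideal.eq_top_iff_one p).2 ((hm 1).2 (by simpa)))
  by_contra hd
  obtain rfl | rfl : d = 0 ∨ d = 1 := by omega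
  · obtain ⟨c, rfl⟩ : ∃ c, f = C c :=
      ⟨_, totalDegree_eq_zero_iff_eq_C.1 ((totalDegree_zero_iff_isHomogeneous _).2 hf)⟩
    have hc : c ≠ 0 := by
      rintro rfl
      simp at hf0
    rcases hpr.mem_or_mem (hI _ (xy_mem (i := 0) (j := 3) (by decide) (by decide))) with h1 | h1
    · exact X_not_mem _ c hc ((hm _).1 h1)
    · exact X_not_mem _ c hc ((hm _).1 h1)
  · have hsp : f ∈ Submodule.span K (Set.range (X : Fin 6 → R K)) := by
      rw [← homogeneousSubmodule_one_eq_span_X]
      exact hf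
    obtain ⟨c, rfl⟩ := (Submodule.mem_span_range_iff_exists_fun K).1 hsp
    have hc : ∀ i j : Fin 6, (i.1 < 3 ↔ j.1 < 3) → X j ∈ p → c i = 0 := fun i j hij hj => by
      have h0 := ev_zero ((hm _).1 hj) j j Iff.rfl 1 0
      have h1 := ev_zero ((hm _).1 hj) i j hij 1 1
      by_cases e : i = j
      · subst e
        simpa [Pi.single_apply] using h0
      · have e' : ¬ j = i := fun h => e h.symm
        simp [Pi.single_apply, mul_add, Finset.sum_add_distrib, e'] at h0 h1
        simpa [h0] using h1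
    have h1 : ∃ j : Fin 6, j.1 < 3 ∧ X j ∈ p := by
      rcases hpr.mem_or_mem (hI _ x_mem) with h1 | h1
      · rcases hpr.mem_or_mem h1 with h1 | h1
        · exact ⟨0, by decide, h1⟩
        · exact ⟨1, by decide, h1⟩
      · exact ⟨2, by decide, h1⟩
    have h2 : ∃ j : Fin 6, ¬ j.1 < 3 ∧ X j ∈ p := by
      rcases hpr.mem_or_mem (hI _ y_mem) with h1 | h1
      · rcases hpr.mem_or_mem h1 with h1 | h1
        · exact ⟨3, by decide, h1⟩
        · exact ⟨4, by decide, h1⟩
      · exact ⟨5, by decide, h1⟩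
    obtain ⟨j1, hj1, h1⟩ := h1
    obtain ⟨j2, hj2, h2⟩ := h2
    have : ∀ i, c i = 0 := fun i => by
      by_cases hi : i.1 < 3
      · exact hc i j1 (iff_of_true hi hj1) h1
      · exact hc i j2 (iff_of_false hi hj2) h2
    simp [this] at hf0

theorem cc_zero {f : R K} (hf : f ∈ Ideal.span (Set.range (X : Fin 6 → R K))) :
    constantCoeff f = 0 := by
  refine (Ideal.span_le.2 ?_ : _ ≤ RingHom.ker (constantCoeff : R K →+* K)) hf
  rintro _ ⟨i, rfl⟩
  simp

theorem no_two {f g : R K} (hf : constantCoeff f = 0) (hg : constantCoeff g = 0)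
    (h1 : ∀ x, f * x ∈ I K → x ∈ I K)
    (h2 : ∀ x, (∃ y, g * x - f * y ∈ I K) → ∃ y, x - f * y ∈ I K) : False := by
  have hA : ∀ u : R K, constantCoeff u = 0 → ∀ j : Fin 6, ¬ j.1 < 3 →
      X j * keep (fun i => i.1 < 3) u ∈ I K := fun u hu j hj => by
    have := keep_mul (fun i => i.1 < 3) (X j : R K) (fun i hi => xy_mem hi (by omega)) u
    rwa [hu, map_zero, sub_zero, mul_comm] at this
  have e1 := drop_mul (fun i => i.1 < 3) _ (hA f hf) g
  have e2 := drop_mul (fun i => i.1 < 3) _ (hA g hg) f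
  obtain ⟨y, hy⟩ := h2 (keep (fun i => i.1 < 3) f) ⟨keep (fun i => i.1 < 3) g, by
    convert (I K).sub_mem e1 e2 using 1
    ring⟩
  have e3 := drop_mul (fun i => i.1 < 3) (X 0 : R K) (fun j hj => by
    rw [mul_comm]
    exact xy_mem (by decide) (by omega)) f
  have e4 : X 0 * (1 - y) ∈ I K := h1 _ (by
    convert (I K).add_mem e3 ((I K).mul_mem_left (X 0) hy) using 1
    ring)
  have e5 : X 3 * y ∈ I K := h1 _ (by
    convert (I K).sub_mem (hA f hf 3 (by decide)) ((I K).mul_mem_left (X 3) hy) using 1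
    ring)
  have hc : ∀ (i : Fin 6) (u : R K), X i * u ∈ I K → constantCoeff u = 0 := fun i u hu => by
    have a1 := kill (keep (K := K) (fun j => j = i)).toRingHom i i Iff.rfl
      (fun j hj _ => by simp [keep_X, hj]) hu
    have a2 : keep (fun j => j = i) u = 0 := by simpa [keep_X] using a1
    have a3 : (constantCoeff : R K →+* K).comp (keep (K := K) (fun j => j = i)).toRingHom
        = constantCoeff := by
      refine ringHom_ext (fun r => by simp [keep]) fun j => ?_
      by_cases hj : j = i <;> simp [keep_X, hj]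
    rw [← a3]
    change constantCoeff (keep (fun j => j = i) u) = 0
    rw [a2, map_zero]
  have a1 := hc _ _ e4
  rw [map_sub, hc _ _ e5, map_one, sub_zero] at a1
  exact one_ne_zero a1

theorem result (K : Type) [Field K] : ∃ I : Ideal (MvPolynomial (Fin 6) K),
    SqFreeMon I ∧ IsLeast (vSet I) 2 ∧ depth I ≤ 1 := by
  refine ⟨I K, ⟨fun h => X_not_mem (K := K) 0 1 one_ne_zero (h ▸ Submodule.mem_top), S, rfl⟩,
    ⟨two_mem, two_le⟩, ?_⟩
  refine iSup_le fun rs => iSup_le fun hm => iSup_le fun hr => ?_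
  match rs, hm, hr with
  | [], _, _ => simp
  | [_], _, _ => simp
  | f :: g :: l, hm, hr =>
    exfalso
    have hw := hr.toIsWeaklyRegular
    rw [RingTheory.Sequence.isWeaklyRegular_cons_iff,
      RingTheory.Sequence.isWeaklyRegular_cons_iff] at hw
    obtain ⟨a1, a2, -⟩ := hw
    refine no_two (cc_zero (hm f (by simp))) (cc_zero (hm g (by simp))) (fun x hx => ?_) ?_
    · rw [← Ideal.Quotient.eq_zero_iff_mem] at hx ⊢
      exact a1.right_eq_zero_of_smul hx
    · rintro x ⟨y, hy⟩
      have a3 : (Submodule.Quotient.mk (Ideal.Quotient.mk (I K) x) :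
          QuotSMulTop f (R K ⧸ I K)) = 0 := by
        refine a2.right_eq_zero_of_smul ?_
        rw [← Submodule.Quotient.mk_smul, Submodule.Quotient.mk_eq_zero,
          Submodule.mem_smul_pointwise_iff_exists]
        exact ⟨Ideal.Quotient.mk _ y, trivial, (Ideal.Quotient.eq.2 hy).symm⟩
      rw [Submodule.Quotient.mk_eq_zero, Submodule.mem_smul_pointwise_iff_exists] at a3
      obtain ⟨z, -, hz⟩ := a3
      obtain ⟨w, rfl⟩ := Ideal.Quotient.mk_surjective z
      exact ⟨w, Ideal.Quotient.eq.1 hz.symm⟩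

end Pool.Agent.Results.MP_d06a13_ag.Counter
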